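import Pool.Agent.Run7.h897.QU.Fin
import Pool.Agent.Run7.h897.QC.Q15

/-!
# The value of the mass gap for all `l`, at polynomially large `β`
-/

open MeasureTheory Filter Topology
open Run7.h4.YM Run7.h630.WL Run7.h630.QC

namespace Pool.Agent.Run7.h897.QU

lemma HasGap.mono {N l : ℕ} [MeasurableSpace (SU N)] {ν : Measure (LinkZ l → SU N)} {m m' : ℝ}
    (h : HasGap ν m') (hm : m ≤ m') : HasGap ν m := by
  intro F F' hO hO' C C' hC hC' t ht
  refine (h F F' hO hO' C C' hC hC' t ht).trans ?_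
  have hC0 : 0 ≤ C := (abs_nonneg _).trans (hC fun _ => 1)
  have hC0' : 0 ≤ C' := (abs_nonneg _).trans (hC' fun _ => 1)
  apply mul_le_mul_of_nonneg_left _ (by positivity)
  apply Real.exp_le_exp.2
  have h4 : (0 : ℝ) ≤ t := Nat.cast_nonneg t
  have := mul_le_mul_of_nonneg_right hm h4
  linarith

lemma SlowerThan.mono {N l : ℕ} [MeasurableSpace (SU N)] {ν : Measure (LinkZ l → SU N)}
    {m m' : ℝ} (h : SlowerThan ν m) (hm : m ≤ m') : SlowerThan ν m' := by
  obtain ⟨F, hF, hG, hK⟩ := h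
  refine ⟨F, hF, hG, fun K => ?_⟩
  obtain ⟨t, ht, h1⟩ := hK (max K 0)
  refine ⟨t, ht, lt_of_le_of_lt ?_ h1⟩
  have h4 : (0 : ℝ) ≤ t := Nat.cast_nonneg t
  have h5 : Real.exp (-(m' * t)) ≤ Real.exp (-(m * t)) := by
    apply Real.exp_le_exp.2
    have := mul_le_mul_of_nonneg_right hm h4
    linarith
  calc K * Real.exp (-(m' * t)) ≤ max K 0 * Real.exp (-(m' * t)) :=
        mul_le_mul_of_nonneg_right (le_max_left _ _) (Real.exp_pos _).le
    _ ≤ max K 0 * Real.exp (-(m * t)) := mul_le_mul_of_nonneg_left h5 (le_max_right _ _)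

/-- **The value of the mass gap for all `l`** -/
theorem all (N k : ℕ) (hN : 2 ≤ N) (hk : Nat.Coprime k N) [MeasurableSpace (SU N)]
    [BorelSpace (SU N)] (μ : Measure (SU N)) [IsProbabilityMeasure μ] [μ.IsHaarMeasure]
    (ε : ℝ) (hε : 0 < ε) :
    ∃ C p : ℕ, ∀ (l : ℕ) [NeZero l] (β : ℝ), C * (l : ℝ) ^ p ≤ β →
      (∃ ν : Measure (LinkZ l → SU N), IsLimit k μ β ν) ∧
      ∀ ν : Measure (LinkZ l → SU N), IsLimit k μ β ν →
        HasGap ν (2 * Real.arsinh (Real.sin (Real.pi / (l * N))) - ε / l) ∧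
        SlowerThan ν (2 * Real.arsinh (Real.sin (Real.pi / (l * N))) + ε / l) := by
  obtain ⟨p, l0, h1⟩ := value N k hN hk μ (2 * Real.pi / N - ε / 2) (2 * Real.pi / N + ε / 2)
    (by linarith) (by linarith)
  have hlim := Pool.Agent.Run7.h897.QC.rate_lim N hN
  obtain ⟨l1, hl1⟩ := eventually_atTop.1 ((hlim.eventually (gt_mem_nhds
    (show 2 * Real.pi / N < 2 * Real.pi / N + ε / 2 by linarith))).and (hlim.eventually
    (lt_mem_nhds (show 2 * Real.pi / N - ε / 2 < 2 * Real.pi / N by linarith))))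
  have h2 : ∀ l : ℕ, ∃ C : ℕ, ∀ [NeZero l] (β : ℝ), (C : ℝ) ≤ β →
      (∃ ν : Measure (LinkZ l → SU N), IsLimit k μ β ν) ∧
      ∀ ν : Measure (LinkZ l → SU N), IsLimit k μ β ν →
        HasGap ν (2 * Real.arsinh (Real.sin (Real.pi / (l * N))) - ε / l) ∧
        SlowerThan ν (2 * Real.arsinh (Real.sin (Real.pi / (l * N))) + ε / l) := by
    intro l
    rcases Nat.eq_zero_or_pos l with h0 | h0
    · subst h0
      exact ⟨0, fun {h} => absurd rfl h.out⟩
    · haveI : NeZero l := ⟨by omega⟩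
      have hl0 : (0 : ℝ) < l := by exact_mod_cast h0
      have hεl : 0 < ε / l := by positivity
      obtain ⟨b, hb⟩ := fixed (l := l) hN hk μ
        (m := 2 * Real.arsinh (Real.sin (Real.pi / (l * N))) - ε / l)
        (m' := 2 * Real.arsinh (Real.sin (Real.pi / (l * N))) + ε / l)
        (by linarith) (by linarith)
      obtain ⟨C, hC⟩ := exists_nat_ge b
      exact ⟨C, fun {_} β hβ => hb β (hC.trans hβ)⟩
  choose B hB using h2
  refine ⟨∑ l ∈ Finset.range (max l0 l1), B l + 1, p, fun l _ β hβ => ?_⟩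
  have hlr : (1 : ℝ) ≤ l := by exact_mod_cast NeZero.one_le
  have hl0 : (0 : ℝ) < l := by linarith
  have hp1 : (1 : ℝ) ≤ (l : ℝ) ^ p := one_le_pow₀ hlr
  by_cases hl : l < max l0 l1
  · refine hB l β (le_trans ?_ hβ)
    have h3 : B l ≤ ∑ l ∈ Finset.range (max l0 l1), B l + 1 :=
      (Finset.single_le_sum (f := B) (fun _ _ => Nat.zero_le _) (Finset.mem_range.2 hl)).trans
        (Nat.le_succ _)
    have h4 : (B l : ℝ) ≤ ((∑ l ∈ Finset.range (max l0 l1), B l + 1 : ℕ) : ℝ) := by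
      exact_mod_cast h3
    refine h4.trans (le_mul_of_one_le_right (by positivity) hp1)
  · push Not at hl
    have hll0 : l0 ≤ l := (le_max_left _ _).trans hl
    have hll1 : l1 ≤ l := (le_max_right _ _).trans hl
    have hβ' : (l : ℝ) ^ p ≤ β := by
      refine le_trans ?_ hβ
      refine le_mul_of_one_le_left (by positivity) ?_
      exact_mod_cast Nat.le_add_left 1 _
    obtain ⟨hex, hall⟩ := h1 l hll0 β hβ'
    refine ⟨hex, fun ν hν => ?_⟩
    obtain ⟨g1, g2⟩ := hall ν hν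
    obtain ⟨r1, r2⟩ := hl1 l hll1
    unfold TW.rate at r1 r2
    refine ⟨HasGap.mono g1 ?_, SlowerThan.mono g2 ?_⟩
    · rw [sub_le_iff_le_add, ← add_div, le_div_iff₀ hl0]
      linarith
    · rw [← sub_le_iff_le_add, ← sub_div, div_le_iff₀ hl0]
      linarith

end Pool.Agent.Run7.h897.QU
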