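import Pool.Agent.Run7.h897.QU.U4
import Pool.Agent.Run7.h871.YM.Pair

/-!
# The value of the mass gap at fixed `l`
-/

set_option linter.unusedSectionVars false
set_option linter.unusedVariables false
set_option linter.style.haveILetI false

open MeasureTheory Matrix Filter Topology
open Pool.Agent.Run7.h630 (R2.zeta R2.TwPair R2.Fo)
open Pool.Agent.Run7.h897 (TW.XT TW.Ls TW.Lc TW.sg TW.Lk TW.perZ TW.rate)
open Pool.Agent.Run7.h897.FS (PM BM)
open Pool.Agent.Run7.h897.ST (S4 S6 phi phi_cont phi_symm_cont mu6 mu6_haar mu6_prob)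
open Pool.Agent.Run7.h871.TC (wE)
open Run7.h4.YM Run7.h630.WL Run7.h630.ML Run7.h630.QC
open Pool.Agent.Run7.h897.QC (ext ext_meas ext_per ext_per0 obs_tz lim_diag tshift_cont)
open Pool.Agent.Run7.h871.UP

namespace Pool.Agent.Run7.h897.QU

noncomputable section

/-- a function of the fibre loops in the time slice zero -/
def Fz {N l : ℕ} [NeZero N] [NeZero l] (z : ℂ) (θ : ℝ) (c w : ℕ) (s β : ℝ)
    (V : LinkZ l → SU N) : ℝ :=
  Fg z θ c w s β fun i y => phi N (V (2, (0, (i : ℤ), y)))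

section

variable {N l : ℕ} [NeZero N] [NeZero l] (z : ℂ) (θ : ℝ) (c w : ℕ) (s β : ℝ)

lemma Fz_cont : Continuous (Fz (N := N) (l := l) z θ c w s β) := by
  unfold Fz
  exact (Fg_cont z θ c w s β).comp
    (continuous_pi fun i => continuous_pi fun y => (phi_cont N).comp (continuous_apply _))

lemma Fz_obs : IsObs (Fz (N := N) (l := l) z θ c w s β) := by
  refine ⟨Fz_cont z θ c w s β, w, fun V V' h => ?_⟩
  unfold Fz
  refine Fg_loc fun i hi => funext fun y => congrArg _ (h _ (by show (2 : Fin 4) ≠ 0; decide)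
    rfl ?_)
  show |((i : ℕ) : ℤ)| ≤ (w : ℤ)
  rw [abs_of_nonneg (by positivity)]
  exact_mod_cast hi.le

lemma Fz_gauge : IsGaugeInv (Fz (N := N) (l := l) z θ c w s β) := by
  intro g V
  unfold Fz
  refine Eq.trans ?_ (Fg_gt z θ c w s β (fun i y => phi N (g (0, (i : ℤ), y)))
    (fun i y => phi N (V (2, (0, (i : ℤ), y)))))
  refine congrArg (Fg z θ c w s β) (funext fun i => funext fun y => ?_)
  show phi N (g (0, (i : ℤ), y) * V (2, (0, (i : ℤ), y)) *
    (g ((0, (i : ℤ), y) + dirZ 2))⁻¹) = _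
  have : (((0, (i : ℤ), y) : SiteZ l) + dirZ 2) = (0, (i : ℤ), y + (1, 0)) := by
    simp [dirZ]
  rw [this, map_mul, map_mul, map_inv]

lemma Fz_per {d : ℕ} [NeZero d] (U : TW.Lk d d l → S6 N) (t : ℕ) :
    F6 (fun V => Fz z θ c w s β (tshift t V)) (TW.perZ U) =
      R2.Fo z θ c w s β U (t : ZMod d) := by
  rw [Fo_eq]
  unfold F6 Fz tshift
  refine congrArg (Fg z θ c w s β) (funext fun i => funext fun y => ?_)
  rw [MulEquiv.apply_symm_apply]
  show U ((((((0 : ℤ) + (t : ℤ) : ℤ) : ZMod d), (((i : ℕ) : ℤ) : ZMod d)), y), 2) = _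
  rw [zero_add, Int.cast_natCast, Int.cast_natCast]

end

/-- the upper bound of the gap at fixed `l` -/
theorem upper {N l k : ℕ} [NeZero N] [NeZero l] (hN : 2 ≤ N) (hk : Nat.Coprime k N)
    [MeasurableSpace (SU N)] [BorelSpace (SU N)] (μ : Measure (SU N)) [IsProbabilityMeasure μ]
    [μ.IsHaarMeasure] {m : ℝ} (hm : 2 * Real.arsinh (Real.sin (Real.pi / (l * N))) < m) :
    ∃ β₀ : ℝ, ∀ β : ℝ, β₀ ≤ β → ∀ ν : Measure (LinkZ l → SU N),
      IsLimit k μ β ν → SlowerThan ν m := by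
  letI : MeasurableSpace (S6 N) := borel _
  haveI : BorelSpace (S6 N) := ⟨rfl⟩
  haveI := mu6_prob μ
  haveI := mu6_haar μ
  haveI := Pool.Agent.Run7.h897.ST.right_inv'' (mu6 μ)
  haveI := Pool.Agent.Run7.h897.ST.inv_inv'' (mu6 μ)
  obtain ⟨P, Q, hPQ⟩ := Pool.Agent.Run7.h871.TP.exists_twPair N hk
  obtain ⟨m', hm1, hm2⟩ := exists_between hm
  obtain ⟨z, θ, c, w, s, q, hq, β0, hβ0⟩ := key (mu6 μ) hN hk hPQ hm1
  refine ⟨β0, fun β hβ ν hν => ⟨Fz z θ c w s β, Fz_obs z θ c w s β, Fz_gauge z θ c w s β, ?_⟩⟩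
  obtain ⟨n0, hn0⟩ := hβ0 β hβ
  have hprob := hν.prob
  obtain ⟨F, hF⟩ : ∃ F : (LinkZ l → SU N) → ℝ, F = Fz z θ c w s β := ⟨_, rfl⟩
  have hFc : Continuous F := by rw [hF]; exact Fz_cont z θ c w s β
  have hFo : IsObs F := by rw [hF]; exact Fz_obs z θ c w s β
  have hF1 : ∀ V, |F V| ≤ 1 := by rw [hF]; exact fun V => Fg_le _ _ _ _ _ _ _
  have hp : ∀ (d : ℕ) [NeZero d] (U : TW.Lk d d l → S6 N) (t : ℕ),
      F6 (fun V => F (tshift t V)) (TW.perZ U) = R2.Fo z θ c w s β U (t : ZMod d) := by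
    intro d _ U t
    rw [hF]
    exact Fz_per z θ c w s β U t
  have hp0 : ∀ (d : ℕ) [NeZero d] (U : TW.Lk d d l → S6 N),
      F6 F (TW.perZ U) = R2.Fo z θ c w s β U 0 := by
    intro d _ U
    have := hp d U 0
    simp only [Pool.Agent.Run7.h897.QC.tshift_zero, Nat.cast_zero] at this
    exact this
  -- the limits
  have hA : ∀ t : ℕ, Tendsto (fun q : ℕ => TW.XT (mu6 μ) (wE N l k β)
      (fun U : TW.Lk (2 * (q + 1)) (2 * (q + 1)) l → S6 N =>
        R2.Fo z θ c w s β U 0 * R2.Fo z θ c w s β U (t : ZMod (2 * (q + 1))))) atTop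
      (𝓝 (∫ V, F V * F (tshift t V) ∂ν)) := by
    intro t
    have hc : Continuous fun V => F V * F (tshift t V) := hFc.mul (hFc.comp (tshift_cont t))
    have h1 := lim_diag hν _ hc
    refine h1.congr fun q => ?_
    rw [expect_eq μ k β hc]
    congr 1
    funext U
    rw [← hp0, ← hp]
    rfl
  have hA1 : Tendsto (fun q : ℕ => TW.XT (mu6 μ) (wE N l k β)
      (fun U : TW.Lk (2 * (q + 1)) (2 * (q + 1)) l → S6 N => R2.Fo z θ c w s β U 0)) atTop
      (𝓝 (∫ V, F V ∂ν)) := by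
    have h1 := lim_diag hν _ hFc
    refine h1.congr fun q => ?_
    rw [expect_eq μ k β hFc]
    congr 1
    funext U
    rw [← hp0]
  have hlc := t_U4 N l k hN μ β ν hν F hFo hF1
  obtain ⟨v, hv⟩ : ∃ v, v = ∫ V, F V ∂ν := ⟨_, rfl⟩
  have hcv : ∀ t, cv ν F t = (∫ V, F V * F (tshift t V) ∂ν) - v ^ 2 := fun t => by
    unfold cv
    rw [hv, sq]
  have hev := eventually_ge_atTop n0
  rw [← hv] at hA1
  have hc2 : q ≤ cv ν F 2 := by
    rw [hcv]
    refine ge_of_tendsto ((hA 2).sub (hA1.pow 2)) (hev.mono fun i hi => ?_)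
    exact (hn0 (2 * (i + 1)) (by omega) (even_two_mul _)).1
  have hc4 : Real.exp (-(2 * m')) * cv ν F 2 ≤ cv ν F 4 := by
    rw [hcv, hcv]
    refine le_of_tendsto_of_tendsto (((hA 2).sub (hA1.pow 2)).const_mul _)
      ((hA 4).sub (hA1.pow 2)) (hev.mono fun i hi => ?_)
    exact (hn0 (2 * (i + 1)) (by omega) (even_two_mul _)).2
  intro K
  by_contra hK
  push Not at hK
  have h1 := Pool.Agent.Run7.h871.LC.rate_le (c := cv ν F) hlc
    (m := m) (m' := m') (C := K) (lt_of_lt_of_le hq hc2) hc4 (fun t ht => by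
      have := hK t ht
      rw [← hF] at this
      exact this)
  linarith

/-- **The value of the gap at fixed `l`** -/
theorem fixed {N l k : ℕ} [NeZero l] (hN : 2 ≤ N) (hk : Nat.Coprime k N)
    [MeasurableSpace (SU N)] [BorelSpace (SU N)] (μ : Measure (SU N)) [IsProbabilityMeasure μ]
    [μ.IsHaarMeasure] {m m' : ℝ} (hm : m < 2 * Real.arsinh (Real.sin (Real.pi / (l * N))))
    (hm' : 2 * Real.arsinh (Real.sin (Real.pi / (l * N))) < m') :
    ∃ β₀ : ℝ, ∀ β : ℝ, β₀ ≤ β → (∃ ν : Measure (LinkZ l → SU N), IsLimit k μ β ν) ∧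
      ∀ ν : Measure (LinkZ l → SU N), IsLimit k μ β ν → HasGap ν m ∧ SlowerThan ν m' := by
  haveI : NeZero N := ⟨by omega⟩
  letI : MeasurableSpace (S6 N) := borel _
  haveI : BorelSpace (S6 N) := ⟨rfl⟩
  haveI := mu6_prob μ
  haveI := mu6_haar μ
  haveI := Pool.Agent.Run7.h897.ST.right_inv'' (mu6 μ)
  haveI := Pool.Agent.Run7.h897.ST.inv_inv'' (mu6 μ)
  obtain ⟨β1, hβ1⟩ := upper (l := l) hN hk μ hm'
  obtain ⟨P, Q, hPQ⟩ := Pool.Agent.Run7.h871.TP.exists_twPair N hk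
  have hr0 : 0 < TW.rate l N := by
    unfold TW.rate
    have := Real.arsinh_pos_iff.2 (TW.sin_pos' hN l)
    linarith
  obtain ⟨m1, hm1, hm2⟩ := exists_between (show max m 0 < TW.rate l N from max_lt hm hr0)
  have hm0 : 0 < m1 := (le_max_right _ _).trans_lt hm1
  obtain ⟨a0, ha0, s, hs0, hs, hsm, β2, hβ2⟩ :=
    Pool.Agent.Run7.h871.TC.crit (k := k) (mu6 μ) hN l hPQ hm0 hm2
  refine ⟨max β1 β2, fun β hβ => ?_⟩
  have hcr := hβ2 β ((le_max_right _ _).trans hβ)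
  obtain ⟨hex, hgap⟩ := Pool.Agent.Run7.h897.QC.t_Q16 N l k hN hk μ β m1 a0 ha0 s hs0 hs hsm hcr
  refine ⟨hex, fun ν hν => ⟨?_, hβ1 β ((le_max_left _ _).trans hβ) ν hν⟩⟩
  intro F F' hO hO' C C' hC hC' t ht
  refine (hgap ν hν F F' hO hO' C C' hC hC' t ht).trans ?_
  have hC0 : 0 ≤ C := (abs_nonneg _).trans (hC fun _ => 1)
  have hC0' : 0 ≤ C' := (abs_nonneg _).trans (hC' fun _ => 1)
  apply mul_le_mul_of_nonneg_left _ (by positivity)
  apply Real.exp_le_exp.2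
  have h1 : m ≤ m1 := (le_max_left _ _).trans hm1.le
  have h2 : (0 : ℝ) ≤ t := Nat.cast_nonneg t
  nlinarith

end

end Pool.Agent.Run7.h897.QU
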