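import Pool.Agent.Run7.h897.QU.Iface

/-!
# U2a: the massive Green's function on `ZMod n`
-/

set_option linter.unusedSectionVars false
set_option linter.unusedVariables false
set_option linter.style.haveILetI false

namespace Pool.Agent.Run7.h897.QU

noncomputable section

/-- the function `cosh (ω (n / 2 - x))` -/
def gq (n : ℕ) (ω x : ℝ) : ℝ := Real.cosh (ω * (n / 2 - x))

lemma gq_symm (n : ℕ) (ω x : ℝ) : gq n ω (n - x) = gq n ω x := by
  unfold gq
  rw [← Real.cosh_neg]
  congr 1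
  ring

lemma gq_step (n : ℕ) (ω x : ℝ) : gq n ω (x + 1) + gq n ω (x - 1) =
    2 * Real.cosh ω * gq n ω x := by
  unfold gq
  have e1 : ω * (n / 2 - (x + 1)) = ω * (n / 2 - x) - ω := by ring
  have e2 : ω * (n / 2 - (x - 1)) = ω * (n / 2 - x) + ω := by ring
  rw [e1, e2, Real.cosh_sub, Real.cosh_add]
  ring

lemma gq_zero (n : ℕ) (ω : ℝ) : 2 * Real.cosh ω * gq n ω 0 - gq n ω 1 - gq n ω 1 =
    2 * Real.sinh ω * Real.sinh (ω * (n / 2)) := by
  unfold gq
  have e1 : ω * (n / 2 - 1) = ω * (n / 2) - ω := by ring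
  rw [e1, Real.cosh_sub, sub_zero]
  ring

lemma gq_succ {n : ℕ} [NeZero n] (hn : 2 ≤ n) (ω : ℝ) (t : ZMod n) :
    gq n ω ((t + 1).val : ℕ) = gq n ω (t.val + 1) := by
  haveI : Fact (1 < n) := ⟨by omega⟩
  by_cases h : t.val + 1 < n
  · rw [ZMod.val_add_of_lt (by rw [ZMod.val_one]; exact h), ZMod.val_one]
    push_cast
    rfl
  · have h1 : t.val + 1 = n := by
      have := ZMod.val_lt t
      omega
    have h2 : (t + 1).val = 0 := by
      rw [ZMod.val_eq_zero]
      have h3 : ((t.val + 1 : ℕ) : ZMod n) = 0 := by rw [h1, ZMod.natCast_self]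
      push_cast at h3
      rwa [ZMod.natCast_zmod_val] at h3
    have h4 : (t.val : ℝ) + 1 = n - 0 := by
      have : ((t.val + 1 : ℕ) : ℝ) = n := by rw [h1]
      push_cast at this
      linarith
    rw [h2, h4, gq_symm]
    norm_num

lemma gq_pred {n : ℕ} [NeZero n] (hn : 2 ≤ n) (ω : ℝ) {t : ZMod n} (ht : t ≠ 0) :
    gq n ω ((t - 1).val : ℕ) = gq n ω (t.val - 1) := by
  haveI : Fact (1 < n) := ⟨by omega⟩
  have h1 : t.val ≠ 0 := by rwa [Ne, ZMod.val_eq_zero]
  have h2 : (1 : ZMod n).val ≤ t.val := by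
    rw [ZMod.val_one]; omega
  rw [ZMod.val_sub h2, ZMod.val_one]
  congr 1
  rw [Nat.cast_sub (by omega)]
  push_cast
  ring

/-- **U2a** -/
theorem t_U2a : S_U2a := by
  intro n _ hn ω hω
  haveI : Fact (1 < n) := ⟨by omega⟩
  have hn0 : (0 : ℝ) < n := by exact_mod_cast NeZero.pos n
  have hs : 0 < Real.sinh ω := Real.sinh_pos_iff.2 hω
  have hs2 : 0 < Real.sinh (ω * (n / 2)) := Real.sinh_pos_iff.2 (by positivity)
  obtain ⟨c, hc⟩ : ∃ c, c = 2 * Real.sinh ω * Real.sinh (ω * (n / 2)) := ⟨_, rfl⟩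
  have hc0 : 0 < c := by rw [hc]; positivity
  refine ⟨fun t => gq n ω (t.val : ℕ) / c, fun t => ?_, fun t => ?_, fun t ht => ?_⟩
  · exact div_nonneg (Real.cosh_pos _).le hc0.le
  · beta_reduce
    have e1 : ∀ x y z : ℝ, 2 * Real.cosh ω * (x / c) - y / c - z / c =
        (2 * Real.cosh ω * x - y - z) / c := fun x y z => by ring
    rw [e1, gq_succ hn]
    by_cases h : t = 0
    · rw [if_pos h, h, ZMod.val_zero, div_eq_one_iff_eq hc0.ne']
      have h3 : gq n ω (((0 : ZMod n) - 1).val : ℕ) = gq n ω 1 := by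
        rw [← gq_symm n ω 1]
        congr 1
        rw [zero_sub, ZMod.neg_val, if_neg one_ne_zero, ZMod.val_one, Nat.cast_sub (by omega)]
        norm_num
      rw [h3]
      push_cast
      rw [zero_add, gq_zero, hc]
    · rw [if_neg h, gq_pred hn ω h, div_eq_zero_iff]
      left
      have := gq_step n ω t.val
      linarith
  · beta_reduce
    rw [ZMod.val_natCast_of_lt ht, div_le_div_iff₀ (by positivity) hc0, hc]
    have h1 : Real.exp (ω * (n / 2 - t)) / 2 ≤ gq n ω t := by
      unfold gq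
      rw [Real.cosh_eq]
      have := Real.exp_pos (-(ω * (n / 2 - t)))
      linarith
    have h2 : Real.sinh (ω * (n / 2)) ≤ Real.exp (ω * (n / 2)) / 2 := by
      rw [Real.sinh_eq]
      have := Real.exp_pos (-(ω * (n / 2)))
      linarith
    have h3 : Real.exp (-(ω * t)) * Real.sinh (ω * (n / 2)) ≤ gq n ω t := by
      refine le_trans ?_ h1
      calc Real.exp (-(ω * t)) * Real.sinh (ω * (n / 2)) ≤
          Real.exp (-(ω * t)) * (Real.exp (ω * (n / 2)) / 2) :=
            mul_le_mul_of_nonneg_left h2 (Real.exp_pos _).le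
        _ = _ := by
            rw [mul_div_assoc', ← Real.exp_add]
            congr 2
            ring
    calc Real.exp (-(ω * t)) * (2 * Real.sinh ω * Real.sinh (ω * (n / 2))) =
        (Real.exp (-(ω * t)) * Real.sinh (ω * (n / 2))) * (2 * Real.sinh ω) := by ring
      _ ≤ _ := mul_le_mul_of_nonneg_right h3 (by positivity)

end

end Pool.Agent.Run7.h897.QU
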