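import Pool.Agent.Run7.h897.QU.U3a

/-!
# U3: the estimates on the torus
-/

set_option linter.unusedSectionVars false
set_option linter.unusedVariables false
set_option linter.style.haveILetI false

open MeasureTheory Matrix Filter Topology
open scoped ComplexConjugate
open Run7.h4.YM Run7.h630.WL Run7.h630.ML Run7.h630.MQ Run7.h630.QC

namespace Pool.Agent.Run7.h897.QU

noncomputable section

/-- the numerical part -/
lemma num_low {q0 qq κ E1 E2 E R : ℝ} (h0 : q0 ≤ 1) (hκ0 : 0 ≤ κ) (hκ : 4 * κ ≤ qq)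
    (h1 : |E1 - Real.exp (-(q0 - qq))| ≤ E) (h2 : |E2 - Real.exp (-(q0 + qq))| ≤ E)
    (hR : R = (E1 - E2) / 2) : κ ≤ R + E := by
  have e1 : Real.exp (-(q0 - qq)) - Real.exp (-(q0 + qq)) =
      2 * (Real.exp (-q0) * Real.sinh qq) := by
    rw [Real.sinh_eq, show -(q0 - qq) = -q0 + qq by ring, show -(q0 + qq) = -q0 + -qq by ring,
      Real.exp_add, Real.exp_add]
    ring
  have hqq : 0 ≤ qq := by linarith
  have e2 : qq ≤ Real.sinh qq := Real.self_le_sinh_iff.2 hqq
  have e3 : Real.exp (-1) ≤ Real.exp (-q0) := Real.exp_le_exp.2 (by linarith)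
  have e4 : (1 : ℝ) / 4 ≤ Real.exp (-1) := by
    rw [Real.exp_neg, one_div]
    apply inv_anti₀ (Real.exp_pos _)
    have := Real.exp_one_lt_d9
    linarith
  have e5 : κ ≤ Real.exp (-q0) * Real.sinh qq := by
    calc κ ≤ 1 / 4 * qq := by linarith
      _ ≤ Real.exp (-q0) * Real.sinh qq :=
        mul_le_mul (e4.trans e3) e2 hqq (Real.exp_pos _).le
  have a1 := abs_le.1 h1
  have a2 := abs_le.1 h2
  rw [hR]
  linarith [a1.1, a2.2]

/-- the error -/
lemma num_err {C l lg sβ A B y x0 R : ℝ} (hC : 0 < C) (hl : 0 ≤ l) (hlg : 0 ≤ lg)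
    (hs : 0 < sβ) (hx : 0 < x0) (hy : 0 ≤ y) (hA : A ≤ 4 * (y / x0)) (hB0 : 0 ≤ B)
    (hB : B ≤ 8 * (y / x0)) (hR : R ≤ lg / sβ) :
    C * (l ^ 4 * lg / sβ * A + l ^ 4 * R * B) ≤ 12 * C * l ^ 4 * lg / sβ * (y / x0) := by
  have hyx : 0 ≤ y / x0 := by positivity
  have h1 : l ^ 4 * lg / sβ * A ≤ l ^ 4 * lg / sβ * (4 * (y / x0)) :=
    mul_le_mul_of_nonneg_left hA (by positivity)
  have h2 : l ^ 4 * R * B ≤ l ^ 4 * (lg / sβ) * (8 * (y / x0)) := by
    refine mul_le_mul ?_ hB hB0 (by positivity)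
    exact mul_le_mul_of_nonneg_left hR (by positivity)
  have h3 := mul_le_mul_of_nonneg_left (add_le_add h1 h2) hC.le
  refine h3.trans (le_of_eq ?_)
  ring

/-- **U3** -/
theorem t_U3 (hF : S_F) (hU : S_U2) : S_U3 := by
  intro N k _ hk _ _ μ _ _
  obtain ⟨C, hC, H⟩ := hF N k hk μ
  refine ⟨12 * C, by positivity, ?_⟩
  intro m l _ _ β hβ j hj1 hjN hjm hjM y hy hym x0 ω a hx0d hω hcosh ha ha1 hcond t ht
  haveI : NeZero (2 * m) := ⟨by have := NeZero.ne m; omega⟩
  have hm1 : 1 ≤ m := NeZero.one_le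
  have hl0 : (0 : ℝ) < l := by exact_mod_cast NeZero.pos l
  have hN0 : (0 : ℝ) < N := by exact_mod_cast NeZero.pos N
  have hβ0 : 0 < β := by linarith
  have hlog : 0 ≤ Real.log β := Real.log_nonneg hβ
  have hs : 0 < Real.sqrt β := Real.sqrt_pos.2 hβ0
  have hsω : 0 < Real.sinh ω := Real.sinh_pos_iff.2 hω
  have hx0 : 0 < x0 := by
    have h3 : 0 < mass N k j / l := by positivity
    have h4 : mass N k j / l ≤ Real.pi := by
      rw [div_le_iff₀ hl0]
      refine hjM.trans ?_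
      nlinarith [Real.pi_pos, mul_pos Real.pi_pos hl0]
    have h5 : Real.cos (mass N k j / l) < Real.cos 0 :=
      Real.cos_lt_cos_of_nonneg_of_le_pi le_rfl h4 h3
    rw [Real.cos_zero] at h5
    rw [hx0d]
    linarith
  obtain ⟨Y, hY⟩ : ∃ Y, Y = 2 * y := ⟨_, rfl⟩
  rw [← hY] at hcosh ⊢
  have hY2 : 2 ≤ Y := by omega
  have hYL : Y < 2 * m := by omega
  have hYr : (Y : ℝ) = 2 * y := by rw [hY]; push_cast; rfl
  obtain ⟨G, hG1, hG0, hGx, hGl⟩ := hU (2 * m) (2 * m) Y (by omega) hY2 hYL x0 ω hx0 hω hcosh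
  have hKG : ∀ u, Kr x0 G u = src (2 * m) Y 0 u := by
    intro u
    have h1 := congrFun hG1 u
    rw [KK_real] at h1
    exact_mod_cast h1
  have hφ0 : ∀ x, 0 ≤ sb (2 * m) Y x := Run7.h281.QU.sb_nonneg (2 * m) Y hY2
  have hsrc0 : ∀ τ u, 0 ≤ src (2 * m) Y (n := 2 * m) τ u := by
    intro τ u
    unfold src
    split_ifs
    · exact hφ0 _
    · exact le_rfl
  have hsumsrc : ∀ τ : ZMod (2 * m), ∑ u, src (2 * m) Y τ u ≤ Y := by
    intro τ
    have h1 := sum_src (n := 2 * m) (L := 2 * m) Y τ (fun _ => (1 : ℝ))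
    simp only [mul_one] at h1
    rw [h1]
    exact sum_sb_le hYL.le
  obtain ⟨τ, hτ⟩ : ∃ τ : ZMod (2 * m), τ = (t : ZMod (2 * m)) := ⟨_, rfl⟩
  -- the functions
  obtain ⟨Gt, hGt⟩ : ∃ Gt : ZMod (2 * m) × ZMod (2 * m) → ℝ, Gt = fun u => G (u.1 - τ, u.2) :=
    ⟨_, rfl⟩
  have hKGt : ∀ u, Kr x0 Gt u = src (2 * m) Y τ u := by
    intro u
    rw [hGt, Kr_tr, hKG]
    unfold src
    simp only [sub_eq_zero]
  have hGt0 : ∀ u, 0 ≤ Gt u := fun u => by rw [hGt]; exact hG0 _
  have hGx' : ∀ u, G u ≤ x0⁻¹ := fun u => by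
    rw [inv_eq_one_div, le_div_iff₀ hx0, mul_comm]
    exact hGx u
  have hGtx : ∀ u, Gt u ≤ x0⁻¹ := fun u => by rw [hGt]; exact hGx' _
  have hsG : ∑ u, G u ≤ Y / x0 := by
    rw [le_div_iff₀ hx0, mul_comm, ← Kr_sum]
    simp only [hKG]
    exact hsumsrc 0
  have hsGt : ∑ u, Gt u ≤ Y / x0 := by
    rw [le_div_iff₀ hx0, mul_comm, ← Kr_sum]
    simp only [hKGt]
    exact hsumsrc τ
  obtain ⟨E, hE⟩ : ∃ E, E = 12 * C * l ^ 4 * (1 + Real.log β) / Real.sqrt β * (y / x0) := ⟨_, rfl⟩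
  rw [← hE]
  -- the characteristic function
  have key : ∀ e : ℝ, |e| ≤ 1 →
      |expect μ k β (fun U : Link (2 * m) (2 * m) l → SU N =>
        Real.cos (Real.sqrt β * a * ∑ u, src (2 * m) Y 0 u * (md k U j u).re +
          e * (Real.sqrt β * a * ∑ u, src (2 * m) Y τ u * (md k U j u).re))) -
        Real.exp (-(N * j.1 ^ 2 * l ^ 2 / 4 * (a ^ 2 * ∑ u, (src (2 * m) Y 0 u +
          e * src (2 * m) Y τ u) * (G u + e * Gt u))))| ≤ E ∧
      |expect μ k β (fun U : Link (2 * m) (2 * m) l → SU N =>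
        Real.sin (Real.sqrt β * a * ∑ u, src (2 * m) Y 0 u * (md k U j u).re +
          e * (Real.sqrt β * a * ∑ u, src (2 * m) Y τ u * (md k U j u).re)))| ≤ E := by
    intro e he
    obtain ⟨w, hw⟩ : ∃ w : ZMod (2 * m) × ZMod (2 * m) → ℝ, w = fun u =>
      a * (src (2 * m) Y 0 u + e * src (2 * m) Y τ u) := ⟨_, rfl⟩
    obtain ⟨g, hg⟩ : ∃ g : ZMod (2 * m) × ZMod (2 * m) → ℝ, g = fun u =>
      a * (G u + e * Gt u) := ⟨_, rfl⟩
    have hwg : ∀ u, Kr x0 g u = w u := by
      intro u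
      rw [hg, hw, Kr_lin, hKG, hKGt]
    obtain ⟨c1, c2⟩ := H m m l β hβ {j} (by
      intro i hi
      rw [Finset.mem_singleton] at hi
      subst hi
      exact ⟨hj1, hjN, hjm, hjM⟩) (fun _ u => (w u : ℂ)) (fun _ u => (g u : ℂ)) (by
      intro i hi
      rw [Finset.mem_singleton] at hi
      subst hi
      funext u
      rw [← hx0d, KK_real, hwg])
    simp only [Finset.sum_singleton] at c1 c2
    -- the argument
    have harg : ∀ U : Link (2 * m) (2 * m) l → SU N,
        Real.sqrt β * (∑ u, (w u : ℂ) * md k U j u).re =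
        Real.sqrt β * a * ∑ u, src (2 * m) Y 0 u * (md k U j u).re +
          e * (Real.sqrt β * a * ∑ u, src (2 * m) Y τ u * (md k U j u).re) := by
      intro U
      rw [Complex.re_sum]
      simp only [Complex.re_ofReal_mul, hw]
      have h1 : ∀ u : ZMod (2 * m) × ZMod (2 * m),
          a * (src (2 * m) Y 0 u + e * src (2 * m) Y τ u) * (md k U j u).re =
          a * (src (2 * m) Y 0 u * (md k U j u).re) +
            e * (a * (src (2 * m) Y τ u * (md k U j u).re)) := fun u => by ring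
      simp only [h1, Finset.sum_add_distrib, ← Finset.mul_sum]
      ring
    have hcov : (∑ u, (w u : ℂ) * conj ((g u : ℝ) : ℂ)).re = a ^ 2 * ∑ u, (src (2 * m) Y 0 u +
          e * src (2 * m) Y τ u) * (G u + e * Gt u) := by
      rw [Complex.re_sum, Finset.mul_sum]
      refine Finset.sum_congr rfl fun u _ => ?_
      rw [Complex.conj_ofReal, Complex.re_ofReal_mul, Complex.ofReal_re, hw, hg]
      ring
    simp only [harg] at c1 c2
    rw [hcov] at c1
    -- the error
    have hEr : Er C m m l β {j} (fun _ u => (w u : ℂ)) (fun _ u => (g u : ℂ)) ≤ E := by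
      unfold Er
      simp only [Finset.sum_singleton, Complex.norm_real, Real.norm_eq_abs]
      have n1 : ∀ u, |g u| ≤ a * (G u + Gt u) := by
        intro u
        rw [hg, abs_mul, abs_of_pos ha]
        refine mul_le_mul_of_nonneg_left ?_ ha.le
        refine (abs_add_le _ _).trans ?_
        rw [abs_mul, abs_of_nonneg (hG0 u), abs_of_nonneg (hGt0 u)]
        have := mul_le_mul_of_nonneg_right he (hGt0 u)
        linarith
      have n2 : ∀ u, |w u| ≤ a * (src (2 * m) Y 0 u + src (2 * m) Y τ u) := by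
        intro u
        rw [hw, abs_mul, abs_of_pos ha]
        refine mul_le_mul_of_nonneg_left ?_ ha.le
        refine (abs_add_le _ _).trans ?_
        rw [abs_mul, abs_of_nonneg (hsrc0 0 u), abs_of_nonneg (hsrc0 τ u)]
        have := mul_le_mul_of_nonneg_right he (hsrc0 τ u)
        linarith
      have hyx : 0 ≤ (y : ℝ) / x0 := by positivity
      have hA : ∑ u, |g u| ≤ 4 * (y / x0) := by
        calc ∑ u, |g u| ≤ ∑ u, a * (G u + Gt u) := Finset.sum_le_sum fun u _ => n1 u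
          _ = a * (∑ u, G u + ∑ u, Gt u) := by rw [← Finset.mul_sum, Finset.sum_add_distrib]
          _ ≤ 1 * (Y / x0 + Y / x0) := by
              refine mul_le_mul ha1 (add_le_add hsG hsGt) ?_ (by norm_num)
              exact add_nonneg (Finset.sum_nonneg fun u _ => hG0 u)
                (Finset.sum_nonneg fun u _ => hGt0 u)
          _ = _ := by rw [hYr]; ring
      have hW : ∑ u, |w u| ≤ 4 * y := by
        calc ∑ u, |w u| ≤ ∑ u, a * (src (2 * m) Y 0 u + src (2 * m) Y τ u) :=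
              Finset.sum_le_sum fun u _ => n2 u
          _ = a * (∑ u, src (2 * m) Y 0 u + ∑ u, src (2 * m) Y τ u) := by
              rw [← Finset.mul_sum, Finset.sum_add_distrib]
          _ ≤ 1 * (Y + Y) := by
              refine mul_le_mul ha1 (add_le_add (hsumsrc 0) (hsumsrc τ)) ?_ (by norm_num)
              exact add_nonneg (Finset.sum_nonneg fun u _ => hsrc0 0 u)
                (Finset.sum_nonneg fun u _ => hsrc0 τ u)
          _ = _ := by rw [hYr]; ring
      have n3 : ∀ u, |g u| ≤ 2 * x0⁻¹ := by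
        intro u
        refine (n1 u).trans ?_
        have h1 : 0 ≤ G u + Gt u := add_nonneg (hG0 u) (hGt0 u)
        calc a * (G u + Gt u) ≤ 1 * (x0⁻¹ + x0⁻¹) :=
              mul_le_mul ha1 (add_le_add (hGx' u) (hGtx u)) h1 (by norm_num)
          _ = _ := by ring
      have hB : ∑ u, |w u| * |g u| ≤ 8 * (y / x0) := by
        calc ∑ u, |w u| * |g u| ≤ ∑ u, |w u| * (2 * x0⁻¹) :=
              Finset.sum_le_sum fun u _ => mul_le_mul_of_nonneg_left (n3 u) (abs_nonneg _)
          _ = (∑ u, |w u|) * (2 * x0⁻¹) := by rw [Finset.sum_mul]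
          _ ≤ 4 * y * (2 * x0⁻¹) := mul_le_mul_of_nonneg_right hW (by positivity)
          _ = _ := by ring
      have hR : Real.sqrt ((1 + Real.log β) / β) ≤ (1 + Real.log β) / Real.sqrt β := by
        refine Real.sqrt_le_iff.2 ⟨by positivity, ?_⟩
        rw [div_pow, Real.sq_sqrt hβ0.le]
        gcongr
        nlinarith
      rw [hE]
      exact num_err hC hl0.le (by positivity) hs hx0 (by positivity) hA
        (Finset.sum_nonneg fun u _ => mul_nonneg (abs_nonneg _) (abs_nonneg _)) hB hR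
    exact ⟨c1.trans hEr, c2.trans hEr⟩
  -- the observables
  have hX0 : ∀ U : Link (2 * m) (2 * m) l → SU N, Fs k j (Real.sqrt β * a) Y (per U) =
      Real.sin (Real.sqrt β * a * ∑ u, src (2 * m) Y 0 u * (md k U j u).re) := by
    intro U
    unfold Fs
    rw [Xf_per0 hYL.le]
  have hXt : ∀ U : Link (2 * m) (2 * m) l → SU N,
      Fs k j (Real.sqrt β * a) Y (tshift t (per U)) =
      Real.sin (Real.sqrt β * a * ∑ u, src (2 * m) Y τ u * (md k U j u).re) := by
    intro U
    unfold Fs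
    rw [Xf_per hYL.le, hτ]
  constructor
  · simp only [hX0]
    have h1 := (key 0 (by norm_num)).2
    simp only [zero_mul, add_zero] at h1
    exact h1
  · simp only [hX0, hXt]
    -- the covariances
    obtain ⟨Q, hQ⟩ : ∃ Q : ZMod (2 * m) → ℝ, Q = fun σ => ∑ x, sb (2 * m) Y x * G (σ, x) :=
      ⟨_, rfl⟩
    have q1 : ∑ u, src (2 * m) Y 0 u * G u = Q 0 := by rw [sum_src, hQ]
    have q2 : ∑ u, src (2 * m) Y τ u * G u = Q τ := by rw [sum_src, hQ]
    have q3 : ∑ u, src (2 * m) Y 0 u * Gt u = Q (-τ) := by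
      rw [sum_src, hQ, hGt]
      simp only [zero_sub]
    have q4 : ∑ u, src (2 * m) Y τ u * Gt u = Q 0 := by
      rw [sum_src, hQ, hGt]
      simp only [sub_self]
    have hcv : ∀ e : ℝ, ∑ u, (src (2 * m) Y 0 u + e * src (2 * m) Y τ u) * (G u + e * Gt u) =
        Q 0 + e * Q (-τ) + e * Q τ + e ^ 2 * Q 0 := by
      intro e
      have h1 : ∀ u, (src (2 * m) Y 0 u + e * src (2 * m) Y τ u) * (G u + e * Gt u) =
          src (2 * m) Y 0 u * G u + e * (src (2 * m) Y 0 u * Gt u) +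
          e * (src (2 * m) Y τ u * G u) + e ^ 2 * (src (2 * m) Y τ u * Gt u) := fun u => by ring
      simp only [h1, Finset.sum_add_distrib, ← Finset.mul_sum, q1, q2, q3, q4]
    obtain ⟨c, hc⟩ : ∃ c : ℝ, c = N * j.1 ^ 2 * l ^ 2 * a ^ 2 := ⟨_, rfl⟩
    have hc0 : 0 ≤ c := by rw [hc]; positivity
    rw [← hc] at hcond ⊢
    obtain ⟨q0, hq0⟩ : ∃ q0, q0 = c / 2 * Q 0 := ⟨_, rfl⟩
    obtain ⟨qq, hqq⟩ : ∃ qq, qq = c / 4 * (Q τ + Q (-τ)) := ⟨_, rfl⟩
    obtain ⟨f1, -⟩ := key (-1) (by norm_num)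
    obtain ⟨f2, -⟩ := key 1 (by norm_num)
    rw [hcv] at f1 f2
    have x1 : N * (j.1 : ℝ) ^ 2 * l ^ 2 / 4 * (a ^ 2 * (Q 0 + -1 * Q (-τ) + -1 * Q τ +
        (-1) ^ 2 * Q 0)) = q0 - qq := by rw [hq0, hqq, hc]; ring
    have x2 : N * (j.1 : ℝ) ^ 2 * l ^ 2 / 4 * (a ^ 2 * (Q 0 + 1 * Q (-τ) + 1 * Q τ +
        1 ^ 2 * Q 0)) = q0 + qq := by rw [hq0, hqq, hc]; ring
    rw [x1] at f1
    rw [x2] at f2
    -- the product
    have hprod : expect μ k β (fun U : Link (2 * m) (2 * m) l → SU N =>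
        Real.sin (Real.sqrt β * a * ∑ u, src (2 * m) Y 0 u * (md k U j u).re) *
          Real.sin (Real.sqrt β * a * ∑ u, src (2 * m) Y τ u * (md k U j u).re)) =
        (expect μ k β (fun U : Link (2 * m) (2 * m) l → SU N =>
          Real.cos (Real.sqrt β * a * ∑ u, src (2 * m) Y 0 u * (md k U j u).re +
            -1 * (Real.sqrt β * a * ∑ u, src (2 * m) Y τ u * (md k U j u).re))) -
          expect μ k β (fun U : Link (2 * m) (2 * m) l → SU N =>
          Real.cos (Real.sqrt β * a * ∑ u, src (2 * m) Y 0 u * (md k U j u).re +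
            1 * (Real.sqrt β * a * ∑ u, src (2 * m) Y τ u * (md k U j u).re)))) / 2 := by
      have hcX : ∀ σ : ZMod (2 * m), Continuous fun U : Link (2 * m) (2 * m) l → SU N =>
          Real.sqrt β * a * ∑ u, src (2 * m) Y σ u * (md k U j u).re := fun σ =>
        continuous_const.mul (continuous_finsetSum _ fun u _ => continuous_const.mul
          (Complex.continuous_re.comp (Run7.h863.MQ.c_md k j u)))
      have hce : ∀ e : ℝ, Continuous fun U : Link (2 * m) (2 * m) l → SU N =>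
          Real.cos (Real.sqrt β * a * ∑ u, src (2 * m) Y 0 u * (md k U j u).re +
            e * (Real.sqrt β * a * ∑ u, src (2 * m) Y τ u * (md k U j u).re)) := fun e =>
        Real.continuous_cos.comp ((hcX 0).add (continuous_const.mul (hcX τ)))
      rw [← expect_half μ k β (hce (-1)) (hce 1)]
      congr 1
      funext U
      have h1 : ∀ A B : ℝ, Real.sin A * Real.sin B =
          (Real.cos (A + -1 * B) - Real.cos (A + 1 * B)) / 2 := by
        intro A B
        rw [show A + -1 * B = A - B by ring, show A + 1 * B = A + B by ring, Real.cos_sub,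
          Real.cos_add]
        ring
      exact h1 _ _
    -- the bounds
    have hq01 : q0 ≤ 1 := by
      have h1 : Q 0 ≤ Y / x0 := by
        rw [hQ]
        calc ∑ x, sb (2 * m) Y x * G (0, x) ≤ ∑ x, sb (2 * m) Y x * x0⁻¹ :=
              Finset.sum_le_sum fun x _ => mul_le_mul_of_nonneg_left (hGx' _) (hφ0 x)
          _ = (∑ x, sb (2 * m) Y x) * x0⁻¹ := by rw [Finset.sum_mul]
          _ ≤ Y * x0⁻¹ := mul_le_mul_of_nonneg_right (sum_sb_le hYL.le) (by positivity)
          _ = _ := by rw [div_eq_mul_inv]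
      rw [hq0]
      calc c / 2 * Q 0 ≤ c / 2 * (Y / x0) := mul_le_mul_of_nonneg_left h1 (by positivity)
        _ = c * y / x0 := by rw [hYr]; ring
        _ ≤ 1 := by rw [div_le_one hx0]; exact hcond
    have hQn : 0 ≤ Q (-τ) := by
      rw [hQ]
      exact Finset.sum_nonneg fun x _ => mul_nonneg (hφ0 x) (hG0 _)
    have hQt : Real.exp (-(ω * t)) / (2 * Real.sinh ω) ≤ Q τ := by
      rw [hQ]
      have h1 : ∀ x, Real.exp (-(ω * t)) / (2 * Real.sinh ω) * (sb (2 * m) Y x) ^ 2 ≤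
          sb (2 * m) Y x * G (τ, x) := by
        intro x
        have h2 := hGl t x ht
        rw [← hτ] at h2
        calc Real.exp (-(ω * t)) / (2 * Real.sinh ω) * (sb (2 * m) Y x) ^ 2 =
            sb (2 * m) Y x * (Real.exp (-(ω * t)) / (2 * Real.sinh ω) * sb (2 * m) Y x) := by ring
          _ ≤ _ := mul_le_mul_of_nonneg_left h2 (hφ0 x)
      have h3 : sb (2 * m) Y ((y : ℕ) : ZMod (2 * m)) = 1 := by
        rw [Run7.h281.QU.sb_cast (2 * m) Y y (by omega), if_pos (by omega), hYr]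
        have hy0 : (0 : ℝ) < y := by exact_mod_cast hy
        rw [show Real.pi * (y : ℝ) / (2 * y) = Real.pi / 2 by field_simp, Real.sin_pi_div_two]
      have h4 := h1 ((y : ℕ) : ZMod (2 * m))
      rw [h3, one_pow, mul_one] at h4
      refine h4.trans ?_
      rw [← h3]
      exact Finset.single_le_sum (f := fun x => sb (2 * m) Y x * G (τ, x))
        (fun x _ => mul_nonneg (hφ0 x) (hG0 _)) (Finset.mem_univ _)
    have hκ : 4 * (c / (32 * Real.sinh ω) * Real.exp (-(ω * t))) ≤ qq := by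
      rw [hqq]
      calc 4 * (c / (32 * Real.sinh ω) * Real.exp (-(ω * t))) =
          c / 4 * (Real.exp (-(ω * t)) / (2 * Real.sinh ω)) := by
            field_simp
            ring
        _ ≤ c / 4 * (Q τ + Q (-τ)) := by
            refine mul_le_mul_of_nonneg_left ?_ (by positivity)
            linarith
    have hκ0 : 0 ≤ c / (32 * Real.sinh ω) * Real.exp (-(ω * t)) := by
      have := Real.exp_pos (-(ω * t))
      positivity
    exact num_low hq01 hκ0 hκ f1 f2 hprod

end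

end Pool.Agent.Run7.h897.QU
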