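import Pool.Agent.Run7.h897.QU.Iface
import Pool.Agent.Run7.h630.MQ.Fin

/-!
# U6: the observable
-/

set_option linter.unusedSectionVars false
set_option linter.unusedVariables false
set_option linter.style.haveILetI false

open MeasureTheory Matrix Filter Topology
open Run7.h4.YM Run7.h630.WL Run7.h630.ML Run7.h630.QC

namespace Pool.Agent.Run7.h897.QU

noncomputable section

/-- gauge transformations of the products along a straight line -/
lemma prod_gauge {N l : ℕ} (h : SiteZ l → SU N) (V : LinkZ l → SU N) (a b : ℤ) (y : ZMod l) :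
    ∀ n : ℕ, ((List.range n).map fun t : ℕ => h (a, b, (t : ZMod l), y) *
        V (2, (a, b, (t : ZMod l), y)) * (h ((a, b, (t : ZMod l), y) + dirZ 2))⁻¹).prod =
      h (a, b, 0, y) * ((List.range n).map fun t : ℕ => V (2, (a, b, (t : ZMod l), y))).prod *
        (h (a, b, (n : ZMod l), y))⁻¹ := by
  intro n
  induction n with
  | zero => simp
  | succ n ih =>
    rw [List.range_succ, List.map_append, List.prod_append, List.map_append, List.prod_append, ih]
    have e : ((a, b, (n : ZMod l), y) + dirZ 2 : SiteZ l) = (a, b, ((n + 1 : ℕ) : ZMod l), y) := by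
      simp [dirZ]
    simp only [List.map_cons, List.map_nil, List.prod_cons, List.prod_nil, mul_one, e]
    group

lemma loop_gauge {N l : ℕ} (h : SiteZ l → SU N) (V : LinkZ l → SU N) (x : ℤ × ℤ) (y : ZMod l) :
    loop (fun e => h e.2 * V e * (h (e.2 + dirZ e.1))⁻¹) x y =
      h (x.1, x.2, 0, y) * loop V x y * (h (x.1, x.2, 0, y))⁻¹ := by
  unfold loop
  have := prod_gauge h V x.1 x.2 y l
  rw [ZMod.natCast_self] at this
  exact this

lemma mode_gauge {N l : ℕ} (k : ℕ) (h : SiteZ l → SU N) (V : LinkZ l → SU N) (j : ℕ × ℤ)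
    (x : ℤ × ℤ) : mode k (fun e => h e.2 * V e * (h (e.2 + dirZ e.1))⁻¹) j x = mode k V j x := by
  unfold mode
  refine Finset.sum_congr rfl fun t _ => ?_
  rw [loop_gauge, conj_pow]
  congr 1
  obtain ⟨g, hg⟩ : ∃ g, g = h (x.1, x.2, 0, 1 + (t : ZMod l)) := ⟨_, rfl⟩
  obtain ⟨L, hL⟩ : ∃ L, L = loop V x (1 + (t : ZMod l)) ^ j.1 := ⟨_, rfl⟩
  rw [← hg, ← hL]
  have e1 : (g * L * g⁻¹).1 = g.1 * L.1 * (g⁻¹).1 := rfl
  have e2 : (g⁻¹).1 * g.1 = 1 := congrArg Subtype.val (inv_mul_cancel g)
  rw [e1, trace_mul_comm, ← mul_assoc, e2, one_mul]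

/-- **U6** -/
theorem t_U6 : S_U6 := by
  intro N l k _ _ j s Y
  refine ⟨⟨?_, Y, fun V V' h => ?_⟩, fun h V => ?_⟩
  · unfold Fs Xf
    refine Real.continuous_sin.comp (continuous_const.mul (continuous_finsetSum _ fun i _ =>
      continuous_const.mul (Complex.continuous_re.comp (Run7.h630.MQ.mode_cont k j _))))
  · unfold Fs Xf
    congr 2
    refine Finset.sum_congr rfl fun i hi => ?_
    rw [Finset.mem_range] at hi
    congr 2
    unfold mode loop
    refine Finset.sum_congr rfl fun t _ => ?_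
    congr 5
    refine List.map_congr_left fun r _ => h (2, (0, (i : ℤ), (r : ZMod l), 1 + (t : ZMod l)))
      (by show (2 : Fin 4) ≠ 0; decide) rfl ?_
    show |((i : ℕ) : ℤ)| ≤ (Y : ℤ)
    rw [abs_of_nonneg (by positivity)]
    exact_mod_cast hi.le
  · unfold Fs Xf
    simp only [mode_gauge]

end

end Pool.Agent.Run7.h897.QU
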