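import Pool.Agent.Run7.h897.QU.Main
import Pool.Agent.Run7.h897.QU.Fix
import Pool.Agent.Run7.h897.QU.U2a
import Pool.Agent.Run7.h897.QU.U3
import Pool.Agent.Run7.h897.QU.U6
import Pool.Agent.Run7.h4.QU.U1
import Pool.Agent.Run7.h182.QU.U5
import Pool.Agent.Run7.h630.MQ.Main
import Pool.Agent.Run7.h630.QC.Main

/-!
# The value of the mass gap at polynomially large `β`
-/

open MeasureTheory
open Run7.h4.YM Run7.h630.WL Run7.h630.QC

namespace Pool.Agent.Run7.h897.QU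

theorem qU : S_QU :=
  t_QU Run7.h4.QU.t_U1 (t_U3 Run7.h630.MQ.t_SF (t_U2 t_U2a Run7.h281.QU.t_U2b)) t_U4
    Run7.h182.QU.t_U5 t_U6 t_U7

/-- **The value of the mass gap, uniformly in the lattice spacing** -/
theorem value (N k : ℕ) (hN : 2 ≤ N) (hk : Nat.Coprime k N) [MeasurableSpace (SU N)]
    [BorelSpace (SU N)] (μ : Measure (SU N)) [IsProbabilityMeasure μ] [μ.IsHaarMeasure]
    (m m' : ℝ) (hm : m < 2 * Real.pi / N) (hm' : 2 * Real.pi / N < m') :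
    ∃ p l₀ : ℕ, ∀ (l : ℕ) [NeZero l], l₀ ≤ l → ∀ β : ℝ, (l : ℝ) ^ p ≤ β →
      (∃ ν : Measure (LinkZ l → SU N), IsLimit k μ β ν) ∧
      ∀ ν : Measure (LinkZ l → SU N), IsLimit k μ β ν →
        HasGap ν (m / l) ∧ SlowerThan ν (m' / l) := by
  have hN0 : (0 : ℝ) < N := by positivity
  obtain ⟨m1, hm1, hm2⟩ := exists_between (show max m 0 < 2 * Real.pi / N from
    max_lt hm (by have := Real.pi_pos; positivity))
  have hm10 : 0 < m1 := (le_max_right _ _).trans_lt hm1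
  obtain ⟨p1, l1, h1⟩ := unif N k hN hk μ m1 hm10 hm2
  obtain ⟨p2, l2, h2⟩ := qU N k hN hk μ m' hm'
  refine ⟨max p1 p2, max 1 (max l1 l2), fun l _ hl β hβ => ?_⟩
  have hl1 : l1 ≤ l := ((le_max_left _ _).trans (le_max_right _ _)).trans hl
  have hl2 : l2 ≤ l := ((le_max_right _ _).trans (le_max_right _ _)).trans hl
  have hlr : (1 : ℝ) ≤ l := by exact_mod_cast (le_max_left _ _).trans hl
  have hβ1 : (l : ℝ) ^ p1 ≤ β := (pow_le_pow_right₀ hlr (le_max_left _ _)).trans hβ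
  have hβ2 : (l : ℝ) ^ p2 ≤ β := (pow_le_pow_right₀ hlr (le_max_right _ _)).trans hβ
  obtain ⟨hex, hgap⟩ := h1 l hl1 β hβ1
  refine ⟨hex, fun ν hν => ⟨?_, h2 l hl2 β hβ2 ν hν⟩⟩
  intro F F' hO hO' C C' hC hC' t ht
  refine (hgap ν hν F F' hO hO' C C' hC hC' t ht).trans ?_
  have hC0 : 0 ≤ C := (abs_nonneg _).trans (hC fun _ => 1)
  have hC0' : 0 ≤ C' := (abs_nonneg _).trans (hC' fun _ => 1)
  apply mul_le_mul_of_nonneg_left _ (by positivity)
  apply Real.exp_le_exp.2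
  have h3 : m / l ≤ m1 / l := div_le_div_of_nonneg_right ((le_max_left _ _).trans hm1.le)
    (by positivity)
  have h4 : (0 : ℝ) ≤ t := Nat.cast_nonneg t
  have := mul_le_mul_of_nonneg_right h3 h4
  linarith

end Pool.Agent.Run7.h897.QU
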