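import Pool.Agent.Run7.h630.MQ.Iface
import Pool.Agent.Run7.h630.QC.Defs

/-!
# The upper bound of the mass gap at polynomially large `β`: interface

The observable `sin X`, `X = s ∑_{i < Y} sin (π i / Y) Re mode (0, i)`. The correlations of `sin X`
at distance `t` are at least `l^(-p) exp (- ω t)`, `ω ≤ (2 π / N + ε) / l`, on all large even tori,
by `S_F`; by log-convexity they cannot decay faster than `exp (- m' t / l)`, `m' > 2 π / N`.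
-/

open MeasureTheory Matrix Filter Topology
open scoped ComplexConjugate
open Run7.h4.YM Run7.h630.WL Run7.h630.ML Run7.h630.MQ Run7.h630.QC

namespace Pool.Agent.Run7.h897.QU

noncomputable section

/-- `F` is gauge invariant -/
def IsGaugeInv {N l : ℕ} (F : (LinkZ l → SU N) → ℝ) : Prop :=
  ∀ (h : SiteZ l → SU N) (V : LinkZ l → SU N),
    F (fun e => h e.2 * V e * (h (e.2 + dirZ e.1))⁻¹) = F V

/-- the truncated correlation of `F` and of its translate in time by `t` -/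
def cv {N l : ℕ} [MeasurableSpace (SU N)] (ν : Measure (LinkZ l → SU N))
    (F : (LinkZ l → SU N) → ℝ) (t : ℕ) : ℝ :=
  ∫ V, F V * F (tshift t V) ∂ν - (∫ V, F V ∂ν) * ∫ V, F V ∂ν

/-- the correlations of some gauge invariant observable do not decay like `exp (- m t)` -/
def SlowerThan {N l : ℕ} [MeasurableSpace (SU N)] (ν : Measure (LinkZ l → SU N)) (m : ℝ) : Prop :=
  ∃ F : (LinkZ l → SU N) → ℝ, IsObs F ∧ IsGaugeInv F ∧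
    ∀ K : ℝ, ∃ t : ℕ, 1 ≤ t ∧ K * Real.exp (-(m * t)) < |cv ν F t|

/-- the goal -/
def S_QU : Prop := ∀ (N k : ℕ), 2 ≤ N → Nat.Coprime k N → ∀ [MeasurableSpace (SU N)]
  [BorelSpace (SU N)] (μ : Measure (SU N)) [IsProbabilityMeasure μ] [μ.IsHaarMeasure] (m' : ℝ),
  2 * Real.pi / N < m' → ∃ p l₀ : ℕ, ∀ (l : ℕ) [NeZero l], l₀ ≤ l → ∀ β : ℝ, (l : ℝ) ^ p ≤ β →
  ∀ ν : Measure (LinkZ l → SU N), IsLimit k μ β ν → SlowerThan ν (m' / l)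

/-- the field -/
def Xf {N l : ℕ} (k : ℕ) (j : ℕ × ℤ) (s : ℝ) (Y : ℕ) (V : LinkZ l → SU N) : ℝ :=
  s * ∑ i ∈ Finset.range Y, Real.sin (Real.pi * i / Y) * (mode k V j (0, (i : ℤ))).re

/-- the observable -/
def Fs {N l : ℕ} (k : ℕ) (j : ℕ × ℤ) (s : ℝ) (Y : ℕ) (V : LinkZ l → SU N) : ℝ :=
  Real.sin (Xf k j s Y V)

/-- the sine bump on `ZMod L` -/
def sb (L Y : ℕ) (x : ZMod L) : ℝ := if x.val < Y then Real.sin (Real.pi * x.val / Y) else 0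

/-- U1: log-convex sequences -/
def S_U1 : Prop := ∀ (c : ℕ → ℝ) (m K : ℝ),
  (∀ u v, 1 ≤ u → 1 ≤ v → c (u + v) ^ 2 ≤ c (2 * u) * c (2 * v)) →
  (∀ t : ℕ, 1 ≤ t → |c t| ≤ K * Real.exp (-(m * t))) → c 2 ≤ 1 →
  ∀ j : ℕ, 1 ≤ j → 0 < c (2 * j) → c (2 * j) ≤ Real.exp (-(m * (2 * j - 2)))

/-- U2a: the massive Green's function on `ZMod n`, `f t = cosh (ω (n / 2 - t.val)) /
(2 sinh ω sinh (ω n / 2))` -/
def S_U2a : Prop := ∀ (n : ℕ) [NeZero n], 2 ≤ n → ∀ ω : ℝ, 0 < ω → ∃ f : ZMod n → ℝ,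
  (∀ t, 0 ≤ f t) ∧
  (∀ t, 2 * Real.cosh ω * f t - f (t + 1) - f (t - 1) = if t = 0 then 1 else 0) ∧
  ∀ t : ℕ, t < n → Real.exp (-(ω * t)) / (2 * Real.sinh ω) ≤ f (t : ZMod n)

/-- U2b: the sine bump is a subsolution -/
def S_U2b : Prop := ∀ (L Y : ℕ) [NeZero L], 2 ≤ Y → Y < L → ∀ x : ZMod L,
  0 ≤ sb L Y x ∧ sb L Y x ≤ 1 ∧
  2 * sb L Y x - sb L Y (x + 1) - sb L Y (x - 1) ≤ (2 - 2 * Real.cos (Real.pi / Y)) * sb L Y x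

/-- U2: the Green's function on the torus applied to the source `δ_0 ⊗ sb`: by the maximum
principle and U2a, U2b: `G ≥ f ⊗ sb`; `x0 G ≤ 1` from `KK_sup` -/
def S_U2 : Prop := ∀ (n L Y : ℕ) [NeZero n] [NeZero L], 2 ≤ n → 2 ≤ Y → Y < L → ∀ x0 ω : ℝ,
  0 < x0 → 0 < ω → 2 * Real.cosh ω = 2 + x0 + (2 - 2 * Real.cos (Real.pi / Y)) →
  ∃ G : ZMod n × ZMod L → ℝ,
    (KK x0 (fun u => (G u : ℂ)) =
      fun u => ((if u.1 = 0 then sb L Y u.2 else 0 : ℝ) : ℂ)) ∧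
    (∀ u, 0 ≤ G u) ∧ (∀ u, x0 * G u ≤ 1) ∧
    ∀ (t : ℕ) (x : ZMod L), t < n →
      Real.exp (-(ω * t)) / (2 * Real.sinh ω) * sb L Y x ≤ G ((t : ZMod n), x)

/-- U3: the estimates on the torus, from `S_F` and U2, with `J = {j}`, `w = a (δ_0 ± δ_t) ⊗ sb`,
`g = a (G_0 ± G_t)`, `G_t u = G (u.1 - t, u.2)`, and `sin X_0 sin X_t = (cos (X_0 - X_t) -
cos (X_0 + X_t)) / 2`; `Q(t) = ∑ sb x G (t, x)`, `q0 = N c² l² a² / 2 Q(0) ≤ 1`,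
`q = N c² l² a² / 4 (Q(t) + Q(-t))`, `E sin X_0 sin X_t = exp (- q0) sinh q + O(Er)`,
`∑ ‖g‖ ≤ 2 a Y / x0`, `∑ ‖w‖ ‖g‖ ≤ 4 a² Y / x0`. -/
def S_U3 : Prop := ∀ (N k : ℕ) [NeZero N], Nat.Coprime k N → ∀ [MeasurableSpace (SU N)]
  [BorelSpace (SU N)] (μ : Measure (SU N)) [IsProbabilityMeasure μ] [μ.IsHaarMeasure],
  ∃ C : ℝ, 0 < C ∧ ∀ (m l : ℕ) [NeZero m] [NeZero l] (β : ℝ), 1 ≤ β → ∀ j : ℕ × ℤ,
    1 ≤ j.1 → j.1 < N → 0 < mass N k j → mass N k j ≤ Real.pi / 2 * l →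
    ∀ y : ℕ, 1 ≤ y → 2 * y < 2 * m → ∀ x0 ω a : ℝ, x0 = 2 - 2 * Real.cos (mass N k j / l) →
    0 < ω → 2 * Real.cosh ω = 2 + x0 + (2 - 2 * Real.cos (Real.pi / (2 * y : ℕ))) →
    0 < a → a ≤ 1 → N * j.1 ^ 2 * l ^ 2 * a ^ 2 * y ≤ x0 → ∀ t : ℕ, t < 2 * m →
    |expect μ k β (fun U : Link (2 * m) (2 * m) l → SU N =>
      Fs k j (Real.sqrt β * a) (2 * y) (per U))| ≤
        C * l ^ 4 * (1 + Real.log β) / Real.sqrt β * (y / x0) ∧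
    N * j.1 ^ 2 * l ^ 2 * a ^ 2 / (32 * Real.sinh ω) * Real.exp (-(ω * t)) ≤
      expect μ k β (fun U : Link (2 * m) (2 * m) l → SU N =>
        Fs k j (Real.sqrt β * a) (2 * y) (per U) *
          Fs k j (Real.sqrt β * a) (2 * y) (tshift t (per U))) +
        C * l ^ 4 * (1 + Real.log β) / Real.sqrt β * (y / x0)

/-- U4: log-convexity of the correlations in the infinite volume, from
`Pool.Agent.Run7.h871.LC.lcT_lim` -/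
def S_U4 : Prop := ∀ (N l k : ℕ) [NeZero N] [NeZero l], 2 ≤ N → ∀ [MeasurableSpace (SU N)]
  [BorelSpace (SU N)] (μ : Measure (SU N)) [IsProbabilityMeasure μ] [μ.IsHaarMeasure] (β : ℝ)
  (ν : Measure (LinkZ l → SU N)), IsLimit k μ β ν →
  ∀ F : (LinkZ l → SU N) → ℝ, IsObs F → (∀ V, |F V| ≤ 1) → ∀ u v : ℕ, 1 ≤ u → 1 ≤ v →
    cv ν F (u + v) ^ 2 ≤ cv ν F (2 * u) * cv ν F (2 * v)

/-- U5: the choice of the parameters. `y = y₀ l` with `M + π / (2 y₀) < m'`, `a = 1 / (N³ l³ y₀)`,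
`ω ≤ (M + π / (2 y₀)) / l`, `r` of order `l log l`. -/
def S_U5 : Prop := ∀ (N : ℕ), 2 ≤ N → ∀ (m' C : ℝ), 2 * Real.pi / N < m' → 0 < C →
  ∃ p l₀ y₀ : ℕ, 1 ≤ y₀ ∧ 2 ≤ l₀ ∧ ∀ l : ℕ, l₀ ≤ l → ∀ β : ℝ, (l : ℝ) ^ p ≤ β →
  ∀ c : ℕ, 1 ≤ c → c < N → ∀ x0 : ℝ, x0 = 2 - 2 * Real.cos (2 * Real.pi / N / l) →
  1 ≤ β ∧ 2 * Real.pi / N ≤ Real.pi / 2 * l ∧
  ∃ ω a D : ℝ, 0 < ω ∧
    2 * Real.cosh ω = 2 + x0 + (2 - 2 * Real.cos (Real.pi / (2 * (y₀ * l) : ℕ))) ∧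
    0 < a ∧ a ≤ 1 ∧ N * c ^ 2 * l ^ 2 * a ^ 2 * (y₀ * l : ℕ) ≤ x0 ∧
    D = C * l ^ 4 * (1 + Real.log β) / Real.sqrt β * ((y₀ * l : ℕ) / x0) ∧ 0 ≤ D ∧ D ≤ 1 ∧
    ∃ r : ℕ, 1 ≤ r ∧ 2 * D + Real.exp (-(m' / l * (2 * r - 2))) <
      N * c ^ 2 * l ^ 2 * a ^ 2 / (32 * Real.sinh ω) * Real.exp (-(ω * (2 * r : ℕ)))

/-- U6: the observable -/
def S_U6 : Prop := ∀ (N l k : ℕ) [NeZero N] [NeZero l] (j : ℕ × ℤ) (s : ℝ) (Y : ℕ),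
  IsObs (Fs (N := N) (l := l) k j s Y) ∧ IsGaugeInv (Fs (N := N) (l := l) k j s Y)

/-- U7: the mode of the smallest mass -/
def S_U7 : Prop := ∀ (N k : ℕ), 2 ≤ N → Nat.Coprime k N →
  ∃ j : ℕ × ℤ, 1 ≤ j.1 ∧ j.1 < N ∧ mass N k j = 2 * Real.pi / N

end

end Pool.Agent.Run7.h897.QU
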