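import Pool.Agent.Run7.h897.QU.U4

/-!
# The upper bound of the mass gap at polynomially large `β`
-/

set_option linter.unusedSectionVars false
set_option linter.unusedVariables false
set_option linter.style.haveILetI false

open MeasureTheory Matrix Filter Topology
open Run7.h4.YM Run7.h630.WL Run7.h630.ML Run7.h630.QC

namespace Pool.Agent.Run7.h897.QU

noncomputable section

lemma lim_diag' {N l : ℕ} [NeZero l] [MeasurableSpace (SU N)] {μ : Measure (SU N)} {k : ℕ} {β : ℝ}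
    {ν : Measure (LinkZ l → SU N)} (hν : IsLimit k μ β ν) (F : (LinkZ l → SU N) → ℝ)
    (hF : Continuous F) : Tendsto (fun q : ℕ => expect μ k β
      fun U : Link (2 * (q + 1)) (2 * (q + 1)) l → SU N => F (per U)) atTop (𝓝 (∫ V, F V ∂ν)) :=
  (hν.lim F hF).comp (tendsto_atTop_diagonal : Tendsto (fun q : ℕ => (q, q)) atTop atTop)

lemma tshift_cont' {N l : ℕ} (t : ℕ) :
    Continuous (tshift t : (LinkZ l → SU N) → LinkZ l → SU N) :=
  continuous_pi fun _ => continuous_apply _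

/-- **The upper bound of the gap** -/
theorem t_QU (h1 : S_U1) (h3 : S_U3) (h4 : S_U4) (h5 : S_U5) (h6 : S_U6) (h7 : S_U7) : S_QU := by
  intro N k hN hk _ _ μ _ _ m' hm'
  haveI : NeZero N := ⟨by omega⟩
  obtain ⟨C, hC, H3⟩ := h3 N k hk μ
  obtain ⟨j, hj1, hjN, hjm⟩ := h7 N k hN hk
  obtain ⟨p, l₀, y₀, hy0, hl0, H5⟩ := h5 N hN m' C hm' hC
  refine ⟨p, l₀, fun l _ hl β hβ ν hν => ?_⟩
  obtain ⟨hβ1, hM, ω, a, D, hω, hcosh, ha, ha1, hcond, hD, hD0, hD1, r, hr, hmain⟩ :=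
    H5 l hl β hβ j.1 hj1 hjN _ rfl
  haveI := hν.prob
  have hlpos : 0 < l := Nat.pos_of_ne_zero (NeZero.ne l)
  obtain ⟨F, hF⟩ : ∃ F : (LinkZ l → SU N) → ℝ, F = Fs k j (Real.sqrt β * a) (2 * (y₀ * l)) :=
    ⟨_, rfl⟩
  have hFo : IsObs F := by rw [hF]; exact (h6 N l k j _ _).1
  have hFg : IsGaugeInv F := by rw [hF]; exact (h6 N l k j _ _).2
  have hF1 : ∀ V, |F V| ≤ 1 := fun V => by rw [hF]; exact Real.abs_sin_le_one _
  have hFc : Continuous F := hFo.1
  refine ⟨F, hFo, hFg, fun K => ?_⟩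
  by_contra hK
  push Not at hK
  have hlc := h4 N l k hN μ β ν hν F hFo hF1
  have hc2 : cv ν F 2 ≤ 1 := by
    unfold cv
    have e1 : ∫ V, F V * F (tshift 2 V) ∂ν ≤ 1 := by
      have i1 : ‖∫ V, F V * F (tshift 2 V) ∂ν‖ ≤ 1 * ν.real Set.univ :=
        norm_integral_le_of_norm_le_const (Eventually.of_forall fun V => by
          rw [Real.norm_eq_abs, abs_mul]
          exact mul_le_one₀ (hF1 _) (abs_nonneg _) (hF1 _))
      rw [probReal_univ, mul_one, Real.norm_eq_abs] at i1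
      exact (le_abs_self _).trans i1
    nlinarith [mul_self_nonneg (∫ V, F V ∂ν)]
  have hmass : mass N k j ≤ Real.pi / 2 * l := by rw [hjm]; exact hM
  have hmass0 : 0 < mass N k j := by
    rw [hjm]
    have := Real.pi_pos
    have : (0 : ℝ) < N := by exact_mod_cast NeZero.pos N
    positivity
  have hT : ∀ᶠ q : ℕ in atTop, y₀ * l < q + 1 ∧ 2 * r < 2 * (q + 1) := by
    filter_upwards [eventually_ge_atTop (y₀ * l + r)] with q hq
    constructor <;> omega
  have HH : ∀ q : ℕ, y₀ * l < q + 1 ∧ 2 * r < 2 * (q + 1) →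
      |expect μ k β (fun U : Link (2 * (q + 1)) (2 * (q + 1)) l → SU N => F (per U))| ≤ D ∧
      N * j.1 ^ 2 * l ^ 2 * a ^ 2 / (32 * Real.sinh ω) * Real.exp (-(ω * (2 * r : ℕ))) - D ≤
        expect μ k β (fun U : Link (2 * (q + 1)) (2 * (q + 1)) l → SU N =>
          F (per U) * F (tshift (2 * r) (per U))) := by
    intro q hq
    have hy : 1 ≤ y₀ * l := Nat.one_le_iff_ne_zero.2 (by positivity)
    obtain ⟨a1, a2⟩ := H3 (q + 1) l β hβ1 j hj1 hjN hmass0 hmass (y₀ * l) hy (by omega)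
      (2 - 2 * Real.cos (2 * Real.pi / N / l)) ω a (by rw [hjm]) hω hcosh ha ha1 hcond (2 * r)
      hq.2
    rw [← hD, ← hF] at a1 a2
    exact ⟨a1, by linarith⟩
  have k1 : |∫ V, F V ∂ν| ≤ D :=
    le_of_tendsto (lim_diag' hν F hFc).abs (hT.mono fun q hq => (HH q hq).1)
  have hcc : Continuous fun V => F V * F (tshift (2 * r) V) :=
    hFc.mul (hFc.comp (tshift_cont' _))
  have k2 : N * j.1 ^ 2 * l ^ 2 * a ^ 2 / (32 * Real.sinh ω) * Real.exp (-(ω * (2 * r : ℕ))) - D ≤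
      ∫ V, F V * F (tshift (2 * r) V) ∂ν :=
    ge_of_tendsto (lim_diag' hν _ hcc) (hT.mono fun q hq => (HH q hq).2)
  have k3 : (∫ V, F V ∂ν) * ∫ V, F V ∂ν ≤ D := by
    have h5 := abs_le.1 k1
    nlinarith
  have hlow : Real.exp (-(m' / l * (2 * r - 2))) < cv ν F (2 * r) := by
    unfold cv
    linarith
  have := h1 (cv ν F) (m' / l) K hlc hK hc2 r hr ((Real.exp_pos _).trans hlow)
  linarith

end

end Pool.Agent.Run7.h897.QU
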