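import Pool.Agent.Run7.h897.QU.Iface
import Pool.Agent.Run7.h630.MQ.Nrm

/-!
# U2: the Green's function on the torus
-/

set_option linter.unusedSectionVars false
set_option linter.unusedVariables false
set_option linter.style.haveILetI false

open Run7.h630.MQ

namespace Pool.Agent.Run7.h897.QU

noncomputable section

variable {n L : ℕ} [NeZero n] [NeZero L]

/-- the real operator -/
def Kr (x0 : ℝ) (H : ZMod n × ZMod L → ℝ) (u : ZMod n × ZMod L) : ℝ :=
  (4 + x0) * H u - H (u + (1, 0)) - H (u - (1, 0)) - H (u + (0, 1)) - H (u - (0, 1))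

lemma KK_real (x0 : ℝ) (H : ZMod n × ZMod L → ℝ) (u : ZMod n × ZMod L) :
    KK x0 (fun u => (H u : ℂ)) u = ((Kr x0 H u : ℝ) : ℂ) := by
  unfold KK Kr
  push_cast
  ring

lemma KK_re (x0 : ℝ) (g : ZMod n × ZMod L → ℂ) (u : ZMod n × ZMod L) :
    (KK x0 g u).re = Kr x0 (fun u => (g u).re) u := by
  unfold KK Kr
  have h : ((4 : ℂ) + x0) = ((4 + x0 : ℝ) : ℂ) := by push_cast; ring
  rw [h]
  simp only [Complex.sub_re, Complex.re_ofReal_mul]

/-- the minimum principle -/
lemma Kr_nonneg {x0 : ℝ} (hx : 0 < x0) {H : ZMod n × ZMod L → ℝ} (h : ∀ u, 0 ≤ Kr x0 H u)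
    (u : ZMod n × ZMod L) : 0 ≤ H u := by
  obtain ⟨v, -, hv⟩ := Finset.exists_min_image Finset.univ H ⟨u, Finset.mem_univ u⟩
  have h1 := h v
  unfold Kr at h1
  have h3 := hv (v + (1, 0)) (Finset.mem_univ _)
  have h4 := hv (v - (1, 0)) (Finset.mem_univ _)
  have h5 := hv (v + (0, 1)) (Finset.mem_univ _)
  have h6 := hv (v - (0, 1)) (Finset.mem_univ _)
  have h7 := hv u (Finset.mem_univ _)
  have h8 : 0 ≤ x0 * H v := by linarith
  have h9 : 0 ≤ H v := nonneg_of_mul_nonneg_right h8 hx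
  linarith

/-- **U2** -/
theorem t_U2 (ha : S_U2a) (hb : S_U2b) : S_U2 := by
  intro n L Y _ _ hn hY hYL x0 ω hx hω hcosh
  obtain ⟨f, hf0, hf1, hf2⟩ := ha n hn ω hω
  have hφ := hb L Y hY hYL
  obtain ⟨s, hs⟩ : ∃ s : ZMod n × ZMod L → ℝ, s = fun u => if u.1 = 0 then sb L Y u.2 else 0 :=
    ⟨_, rfl⟩
  obtain ⟨g, hg⟩ := KK_surj hx (fun u : ZMod n × ZMod L => ((s u : ℝ) : ℂ))
  obtain ⟨G, hG⟩ : ∃ G : ZMod n × ZMod L → ℝ, G = fun u => (g u).re := ⟨_, rfl⟩
  have hKr : ∀ u, Kr x0 G u = s u := by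
    intro u
    rw [hG, ← KK_re, congrFun hg u, Complex.ofReal_re]
  have hs0 : ∀ u, 0 ≤ s u := by
    intro u
    rw [hs]
    beta_reduce
    split_ifs
    · exact (hφ _).1
    · exact le_rfl
  have hs1 : ∀ u, s u ≤ 1 := by
    intro u
    rw [hs]
    beta_reduce
    split_ifs
    · exact (hφ _).2.1
    · norm_num
  refine ⟨G, ?_, ?_, ?_, ?_⟩
  · funext u
    rw [KK_real, hKr, hs]
  · exact Kr_nonneg hx fun u => by rw [hKr]; exact hs0 u
  · intro u
    have h1 : 0 ≤ x0⁻¹ - G u := Kr_nonneg (H := fun u => x0⁻¹ - G u) hx (fun u => by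
      have h2 := hKr u
      have h3 : Kr x0 (fun u => x0⁻¹ - G u) u = 1 - Kr x0 G u := by
        unfold Kr
        have : x0 * x0⁻¹ = 1 := mul_inv_cancel₀ hx.ne'
        linear_combination this
      rw [h3, h2]
      linarith [hs1 u]) u
    have h2 : G u ≤ x0⁻¹ := by linarith
    calc x0 * G u ≤ x0 * x0⁻¹ := mul_le_mul_of_nonneg_left h2 hx.le
      _ = 1 := mul_inv_cancel₀ hx.ne'
  · intro t x ht
    have h1 : 0 ≤ G ((t : ZMod n), x) - f t * sb L Y x :=
      Kr_nonneg (H := fun u => G u - f u.1 * sb L Y u.2) hx (fun u => by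
        obtain ⟨τ, y⟩ := u
        have h2 := hKr (τ, y)
        have h3 : Kr x0 (fun u => G u - f u.1 * sb L Y u.2) (τ, y) = Kr x0 G (τ, y) -
            ((2 * Real.cosh ω * f τ - f (τ + 1) - f (τ - 1)) * sb L Y y +
              f τ * ((4 + x0 - 2 * Real.cosh ω) * sb L Y y - sb L Y (y + 1) -
                sb L Y (y - 1))) := by
          unfold Kr
          simp only [Prod.mk_add_mk, Prod.mk_sub_mk, add_zero, sub_zero]
          ring
        rw [h3, h2, hf1, hs]
        beta_reduce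
        have h4 := (hφ y).2.2
        have h5 : (4 + x0 - 2 * Real.cosh ω) * sb L Y y - sb L Y (y + 1) - sb L Y (y - 1) ≤ 0 := by
          rw [hcosh]
          linarith
        have h6 : f τ * ((4 + x0 - 2 * Real.cosh ω) * sb L Y y - sb L Y (y + 1) -
            sb L Y (y - 1)) ≤ 0 := mul_nonpos_of_nonneg_of_nonpos (hf0 τ) h5
        have h7 : (if (τ, y).1 = 0 then sb L Y (τ, y).2 else 0) =
            (if τ = 0 then (1 : ℝ) else 0) * sb L Y y := by
          split_ifs <;> simp_all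
        rw [h7]
        linarith) ((t : ZMod n), x)
    have h2 := mul_le_mul_of_nonneg_right (hf2 t ht) (hφ x).1
    linarith

end

end Pool.Agent.Run7.h897.QU
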