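import Pool.Agent.Run7.h897.QU.U2
import Pool.Agent.Run7.h281.QU.U2b
import Pool.Agent.Run7.h863.MQ.F1
import Pool.Agent.Run7.h630.MQ.Nrm

/-!
# U3: the estimates on the torus, preparations
-/

set_option linter.unusedSectionVars false
set_option linter.unusedVariables false
set_option linter.style.haveILetI false

open MeasureTheory Matrix Filter Topology
open scoped ComplexConjugate
open Run7.h4.YM Run7.h630.WL Run7.h630.ML Run7.h630.MQ Run7.h630.QC

namespace Pool.Agent.Run7.h897.QU

noncomputable section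

section expct

variable {N n L l k : ℕ} [NeZero N] [NeZero n] [NeZero L] [NeZero l] [MeasurableSpace (SU N)]
  [BorelSpace (SU N)] (μ : Measure (SU N)) [IsProbabilityMeasure μ]

lemma int_w (k : ℕ) (β : ℝ) {f : (Link n L l → SU N) → ℝ} (hf : Continuous f) :
    Integrable (fun U : Link n L l → SU N => f U * Real.exp (-(β * action k U)))
      (Measure.pi fun _ => μ) := by
  have hc : Continuous fun U : Link n L l → SU N => f U * Real.exp (-(β * action k U)) :=
    hf.mul (Real.continuous_exp.comp ((continuous_const.mul (cont_action k)).neg))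
  exact hc.integrable_of_hasCompactSupport (HasCompactSupport.of_compactSpace _)

/-- linearity of the expectation -/
lemma expect_half (k : ℕ) (β : ℝ) {f g : (Link n L l → SU N) → ℝ} (hf : Continuous f)
    (hg : Continuous g) : expect μ k β (fun U => (f U - g U) / 2) =
      (expect μ k β f - expect μ k β g) / 2 := by
  unfold expect
  have h1 : ∀ U : Link n L l → SU N, (f U - g U) / 2 * Real.exp (-(β * action k U)) =
      (f U * Real.exp (-(β * action k U)) - g U * Real.exp (-(β * action k U))) / 2 :=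
    fun U => by ring
  simp only [h1]
  rw [integral_div, integral_sub (int_w μ k β hf) (int_w μ k β hg)]
  ring

end expct

section sums

variable {n L : ℕ} [NeZero n] [NeZero L]

/-- sums with the sine bump -/
lemma sum_sb {Y : ℕ} (hY : Y ≤ L) (h : ZMod L → ℝ) :
    ∑ x : ZMod L, sb L Y x * h x =
      ∑ i ∈ Finset.range Y, Real.sin (Real.pi * i / Y) * h (i : ZMod L) := by
  have h1 : ∑ x : ZMod L, sb L Y x * h x =
      ∑ v ∈ Finset.range L, sb L Y (v : ZMod L) * h (v : ZMod L) := by
    symm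
    refine Finset.sum_bij' (fun v _ => (v : ZMod L)) (fun x _ => x.val)
      (fun _ _ => Finset.mem_univ _) (fun x _ => Finset.mem_range.2 (ZMod.val_lt x)) ?_ ?_ ?_
    · intro v hv
      exact ZMod.val_natCast_of_lt (Finset.mem_range.1 hv)
    · intro x _
      exact ZMod.natCast_zmod_val x
    · intro v _
      rfl
  rw [h1]
  symm
  refine Finset.sum_subset_zero_on_sdiff (fun v hv => Finset.mem_range.2
    ((Finset.mem_range.1 hv).trans_le hY)) (fun v hv => ?_) (fun v hv => ?_)
  · rw [Finset.mem_sdiff, Finset.mem_range, Finset.mem_range] at hv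
    rw [Run7.h281.QU.sb_cast L Y v hv.1, if_neg hv.2, zero_mul]
  · rw [Finset.mem_range] at hv
    rw [Run7.h281.QU.sb_cast L Y v (hv.trans_le hY), if_pos hv]

lemma sum_sb_le {Y : ℕ} (hY : Y ≤ L) : ∑ x : ZMod L, sb L Y x ≤ Y := by
  have h1 := sum_sb hY (fun _ => (1 : ℝ))
  simp only [mul_one] at h1
  rw [h1]
  refine (Finset.sum_le_card_nsmul _ _ 1 fun i _ => Real.sin_le_one _).trans ?_
  rw [Finset.card_range]
  simp

/-- the source at the time `τ` -/
def src (L Y : ℕ) (τ : ZMod n) (u : ZMod n × ZMod L) : ℝ := if u.1 = τ then sb L Y u.2 else 0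

lemma sum_src (Y : ℕ) (τ : ZMod n) (h : ZMod n × ZMod L → ℝ) :
    ∑ u, src L Y τ u * h u = ∑ x : ZMod L, sb L Y x * h (τ, x) := by
  rw [Fintype.sum_prod_type, Finset.sum_comm]
  refine Finset.sum_congr rfl fun x _ => ?_
  rw [Finset.sum_eq_single τ]
  · unfold src
    rw [if_pos rfl]
  · intro t _ ht
    unfold src
    rw [if_neg ht, zero_mul]
  · intro h
    exact absurd (Finset.mem_univ _) h

lemma Kr_sum (x0 : ℝ) (H : ZMod n × ZMod L → ℝ) : ∑ u, Kr x0 H u = x0 * ∑ u, H u := by
  have e1 : ∀ v : ZMod n × ZMod L, ∑ u, H (u + v) = ∑ u, H u := fun v =>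
    Equiv.sum_comp (Equiv.addRight v) H
  have e2 : ∀ v : ZMod n × ZMod L, ∑ u, H (u - v) = ∑ u, H u := fun v =>
    Equiv.sum_comp (Equiv.subRight v) H
  unfold Kr
  simp only [Finset.sum_sub_distrib, ← Finset.mul_sum, e1, e2]
  ring

/-- translations -/
lemma Kr_tr (x0 : ℝ) (H : ZMod n × ZMod L → ℝ) (τ : ZMod n) (u : ZMod n × ZMod L) :
    Kr x0 (fun u => H (u.1 - τ, u.2)) u = Kr x0 H (u.1 - τ, u.2) := by
  obtain ⟨t, x⟩ := u
  unfold Kr
  simp only [Prod.mk_add_mk, Prod.mk_sub_mk, add_zero, sub_zero]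
  rw [show t + 1 - τ = t - τ + 1 by ring, show t - 1 - τ = t - τ - 1 by ring]

lemma Kr_lin (x0 a e : ℝ) (H H' : ZMod n × ZMod L → ℝ) (u : ZMod n × ZMod L) :
    Kr x0 (fun u => a * (H u + e * H' u)) u = a * (Kr x0 H u + e * Kr x0 H' u) := by
  unfold Kr
  ring

end sums

/-- the field on the torus -/
lemma Xf_per {N l k m Y : ℕ} [NeZero l] [NeZero m] (hY : Y ≤ 2 * m) (j : ℕ × ℤ) (s : ℝ)
    (U : Link (2 * m) (2 * m) l → SU N) (t : ℕ) :
    Xf k j s Y (tshift t (per U)) =
      s * ∑ u, src (2 * m) Y (t : ZMod (2 * m)) u * (md k U j u).re := by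
  haveI : NeZero (2 * m) := ⟨by have := NeZero.ne m; omega⟩
  rw [sum_src, sum_sb hY]
  unfold Xf
  congr 1
  refine Finset.sum_congr rfl fun i _ => ?_
  have h1 : mode k (tshift t (per U)) j (0, (i : ℤ)) = mode k (per U) j ((t : ℤ), (i : ℤ)) := by
    unfold mode loop tshift
    simp only [zero_add]
  rw [h1, mode_per]
  simp only [Int.cast_natCast]

lemma Xf_per0 {N l k m Y : ℕ} [NeZero l] [NeZero m] (hY : Y ≤ 2 * m) (j : ℕ × ℤ) (s : ℝ)
    (U : Link (2 * m) (2 * m) l → SU N) :
    Xf k j s Y (per U) = s * ∑ u, src (2 * m) Y 0 u * (md k U j u).re := by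
  have h := Xf_per (k := k) hY j s U 0
  have h0 : tshift 0 (per U) = per U := by
    funext e
    unfold tshift
    simp
  rw [h0, Nat.cast_zero] at h
  exact h

end

end Pool.Agent.Run7.h897.QU
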