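import Pool.Agent.Run7.h897.QU.Iface
import Pool.Agent.Run7.h897.QC.Q16

/-!
# U4: log-convexity of the correlations in the infinite volume; U7: the mode of the smallest mass
-/

set_option linter.unusedSectionVars false
set_option linter.unusedVariables false
set_option linter.style.haveILetI false

open MeasureTheory Matrix Filter Topology
open Pool.Agent.Run7.h897 (TW.XT TW.Ls TW.Lc TW.sg TW.Lk TW.perZ)
open Pool.Agent.Run7.h897.FS (PM BM)
open Pool.Agent.Run7.h897.ST (S4 S6 phi phi_cont phi_symm_cont mu6 mu6_haar mu6_prob)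
open Pool.Agent.Run7.h871.TC (wE)
open Run7.h4.YM Run7.h630.WL Run7.h630.ML Run7.h630.QC
open Pool.Agent.Run7.h897.QC (ext ext_meas ext_per ext_per0 obs_tz lim_diag tshift_cont)

namespace Pool.Agent.Run7.h897.QU

noncomputable section

/-- **U4** -/
theorem t_U4 : S_U4 := by
  intro N l k _ _ hN _ _ μ _ _ β ν hν F hF hF1 u v hu hv
  letI : MeasurableSpace (S6 N) := borel _
  haveI : BorelSpace (S6 N) := ⟨rfl⟩
  haveI := mu6_prob μ
  haveI := mu6_haar μ
  haveI := Pool.Agent.Run7.h897.ST.right_inv'' (mu6 μ)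
  haveI := Pool.Agent.Run7.h897.ST.inv_inv'' (mu6 μ)
  have hb : (wE N l k β).Bd := Pool.Agent.Run7.h871.TC.wE_bd β
  have hw : (wE N l k β).Sy := Pool.Agent.Run7.h871.TC.wE_sy β
  have hFc : Continuous F := hF.1
  have hFt := obs_tz hF
  have hA : ∀ t : ℕ, 1 ≤ t → Tendsto (fun q : ℕ => TW.XT (mu6 μ) (wE N l k β)
      (fun U : TW.Lk (2 * (q + 1)) (2 * (q + 1)) l → S6 N =>
        F (ext (FS.xs (TW.sg (2 * (q + 1)) (2 * (q + 1)) l) U 0)) *
          F (ext (FS.xs (TW.sg (2 * (q + 1)) (2 * (q + 1)) l) U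
            (t : ZMod (2 * (q + 1))))))) atTop (𝓝 (∫ V, F V * F (tshift t V) ∂ν)) := by
    intro t _
    have hc : Continuous fun V => F V * F (tshift t V) := hFc.mul (hFc.comp (tshift_cont t))
    have h1 := lim_diag hν _ hc
    refine h1.congr fun q => ?_
    rw [expect_eq μ k β hc]
    congr 1
    funext U
    rw [← ext_per0 hFt U, ← ext_per hFt U t]
    rfl
  have hA1 : Tendsto (fun q : ℕ => TW.XT (mu6 μ) (wE N l k β)
      (fun U : TW.Lk (2 * (q + 1)) (2 * (q + 1)) l → S6 N =>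
        F (ext (FS.xs (TW.sg (2 * (q + 1)) (2 * (q + 1)) l) U 0)))) atTop
      (𝓝 (∫ V, F V ∂ν)) := by
    have h1 := lim_diag hν _ hFc
    refine h1.congr fun q => ?_
    rw [expect_eq μ k β hFc]
    congr 1
    funext U
    rw [← ext_per0 hFt U]
  have h := Pool.Agent.Run7.h871.LC.lcT_lim (μ := mu6 μ) hb hw (M := fun q => q + 1)
    (c := fun q => 2 * (q + 1)) (b := fun q => 2 * (q + 1))
    (tendsto_atTop_mono (fun i => Nat.le_succ i) tendsto_id) (fun _ => rfl)
    (F := fun q x => F (ext x)) (fun q => ⟨hFc.measurable.comp ext_meas, 1, fun x => hF1 _⟩)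
    (A := fun t => ∫ V, F V * F (tshift t V) ∂ν) hA hA1 hu hv
  unfold cv
  simp only [sq] at h ⊢
  exact h

/-- **U7** -/
theorem t_U7 : S_U7 := by
  intro N k hN hk
  haveI : NeZero N := ⟨by omega⟩
  haveI : Fact (1 < N) := ⟨by omega⟩
  obtain ⟨c, hc⟩ : ∃ c : ZMod N, (k : ZMod N) * c = 1 :=
    ⟨(ZMod.unitOfCoprime k hk)⁻¹.1, by
      rw [← ZMod.coe_unitOfCoprime k hk]
      exact Units.mul_inv _⟩
  have hc0 : c.val ≠ 0 := by
    intro h
    rw [ZMod.val_eq_zero] at h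
    rw [h, mul_zero] at hc
    exact zero_ne_one hc
  have h1 : ((k * c.val - 1 : ℤ) : ZMod N) = 0 := by
    push_cast
    rw [ZMod.natCast_zmod_val, hc, sub_self]
  obtain ⟨d, hd⟩ := (ZMod.intCast_zmod_eq_zero_iff_dvd _ _).1 h1
  refine ⟨(c.val, -d), Nat.one_le_iff_ne_zero.2 hc0, ZMod.val_lt c, ?_⟩
  unfold mass
  have hN0 : (N : ℝ) ≠ 0 := by
    have := NeZero.ne N
    exact_mod_cast this
  have h2 : (k : ℝ) * (c.val : ℝ) = 1 + N * d := by
    have : ((k * c.val - 1 : ℤ) : ℝ) = ((N * d : ℤ) : ℝ) := by rw [hd]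
    push_cast at this
    linarith
  push_cast
  rw [h2]
  field_simp
  ring

end

end Pool.Agent.Run7.h897.QU
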